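import Mathlib

namespace Pool.Agent.X83.NH

/-- Every point has an open neighbourhood homeomorphic to `ℝⁿ`. -/
def LocallyEuclidean (n : ℕ) (X : Type) [TopologicalSpace X] : Prop :=
  ∀ x : X, ∃ U : Set X, IsOpen U ∧ x ∈ U ∧ Nonempty (U ≃ₜ EuclideanSpace ℝ (Fin n))

/-- Any point can be moved to any other by a homeomorphism. -/
def Homogeneous (X : Type) [TopologicalSpace X] : Prop :=
  ∀ x y : X, ∃ h : X ≃ₜ X, h x = y

/-- A homogeneous non-Hausdorff `n`-manifold: connected, locally homeomorphic to `ℝⁿ`, homogeneous,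
and not Hausdorff. -/
def IsHNHManifold (n : ℕ) (X : Type) [TopologicalSpace X] : Prop :=
  ConnectedSpace X ∧ LocallyEuclidean n X ∧ Homogeneous X ∧ ¬ T2Space X

/-- The set of the points `y ≠ z` which cannot be separated from `z` by open sets. -/
def NH {X : Type} [TopologicalSpace X] (z : X) : Set X :=
  {y | y ≠ z ∧ ∀ U V : Set X, IsOpen U → IsOpen V → y ∈ U → z ∈ V → (U ∩ V).Nonempty}

end Pool.Agent.X83.NH
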