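import Pool.Agent.X83.NH.Final

open Filter Topology Set
open scoped symmDiff

namespace Pool.Agent.X83.NH

variable {F : Type} [AddCommGroup F] [TopologicalSpace F] {q : ℝ →+ F}

/-- The points over the two branches at a node are not separated. -/
theorem nonsepD [IsTopologicalAddGroup F] (hq : Continuous q) (hs : DenseRange q)
    (z w : MM q) (ht : z.t = w.t) (hz : z.t ∉ z.S) (hw : w.S = insert z.t z.S)
    (U V : Set (MM q)) (hU : IsOpen U) (hV : IsOpen V) (hzU : z ∈ U) (hwV : w ∈ V) :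
    (U ∩ V).Nonempty := by
  set t := z.t with htdef
  have hU' : IsOpen (line q z.S ⁻¹' U) := isOpen_iff.1 hU _
  have hV' : IsOpen (line q w.S ⁻¹' V) := isOpen_iff.1 hV _
  have h1 : ∀ᶠ u in 𝓝 t, (u, z.θ) ∈ line q z.S ⁻¹' U := by
    have hc : Continuous fun u : ℝ => (u, z.θ) := by fun_prop
    apply hc.continuousAt.eventually_mem
    apply hU'.mem_nhds
    show line q z.S (z.t, z.θ) ∈ U
    rw [line_self]; exact hzU
  have h2 : ∀ᶠ u in 𝓝 t, (u, w.θ) ∈ line q w.S ⁻¹' V := by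
    have hc : Continuous fun u : ℝ => (u, w.θ) := by fun_prop
    apply hc.continuousAt.eventually_mem
    apply hV'.mem_nhds
    rw [ht]
    show line q w.S (w.t, w.θ) ∈ V
    rw [line_self]; exact hwV
  have h3 : ∀ᶠ u in 𝓝 t, ∀ x ∈ z.S, x < u := by
    rw [Filter.eventually_all_finset]
    intro x hx
    have hlt : x < t := lt_of_le_of_ne (z.hS x hx) (fun h => hz (h ▸ hx))
    exact lt_mem_nhds hlt
  -- a third neighbourhood, for the approximate values of the twist
  have h1' : ∀ᶠ p : ℝ × F in 𝓝 (t, z.θ), p ∈ line q z.S ⁻¹' U := by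
    apply hU'.mem_nhds
    show line q z.S (z.t, z.θ) ∈ U
    rw [line_self]; exact hzU
  have h1'' : ∀ᶠ p : ℝ × F in 𝓝 t ×ˢ 𝓝 z.θ, p ∈ line q z.S ⁻¹' U := by
    rwa [nhds_prod_eq] at h1'
  obtain ⟨A, hA, B, hB, hAB⟩ := Filter.eventually_prod_iff.1 h1''
  obtain ⟨ε, hε, hball⟩ := Metric.eventually_nhds_iff.1 (hA.and (h2.and h3))
  -- a value of the twist
  have hB2 : ∀ᶠ c : F in 𝓝 (z.θ - w.θ), B (w.θ + c) := by
    have hc : Tendsto (fun c : F => w.θ + c) (𝓝 (z.θ - w.θ)) (𝓝 z.θ) := by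
      have : Tendsto (fun c : F => w.θ + c) (𝓝 (z.θ - w.θ)) (𝓝 (w.θ + (z.θ - w.θ))) :=
        tendsto_const_nhds.add tendsto_id
      rwa [add_sub_cancel] at this
    exact hc.eventually hB
  obtain ⟨_, ⟨c, rfl⟩, hBc⟩ := hs.inter_nhds_nonempty hB2
  obtain ⟨r, hr0, hrε, hrc⟩ := tw_surj c ε hε
  have hu : dist (t - r) t < ε := by
    rw [Real.dist_eq]
    have : t - r - t = -r := by ring
    rw [this, abs_neg, abs_of_pos hr0]; exact hrε
  obtain ⟨hA2, hV2, hS2⟩ := hball hu
  have hU2 : (t - r, w.θ + q (tw r)) ∈ line q z.S ⁻¹' U := hAB hA2 (by rw [hrc]; exact hBc)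
  refine ⟨line q z.S (t - r, w.θ + q (tw r)), hU2, ?_⟩
  have e : line q z.S (t - r, w.θ + q (tw r)) = line q w.S (t - r, w.θ) := by
    have hsum : ∑ x ∈ z.S, tw (x - (t - r)) = 0 :=
      Finset.sum_eq_zero fun x hx => tw_nonpos (by have := hS2 x hx; linarith)
    unfold line
    dsimp only
    rw [MM.mk.injEq]
    refine ⟨rfl, ?_, ?_⟩
    · rw [hw, Finset.filter_insert, if_neg (by linarith)]
    · rw [hw, Finset.sum_insert hz, hsum, map_zero, add_zero, add_zero]
      have : t - (t - r) = r := by ring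
      rw [this]
  rw [e]; exact hV2

/-- The non-separated points. -/
theorem mem_NHD [IsTopologicalAddGroup F] [T2Space F] (hq : Continuous q)
    (hs : DenseRange q) (z w : MM q) :
    w ∈ NH z ↔ w.t = z.t ∧ w.S = z.S ∆ {z.t} := by
  constructor
  · rintro ⟨hne, hsep⟩
    -- the times
    have ht : w.t = z.t := by
      by_contra hcon
      obtain ⟨U, V, hU, hV, hwU, hzV, hd⟩ := t2_separation hcon
      obtain ⟨x, hx1, hx2⟩ := hsep _ _ (hU.preimage time_continuous)
        (hV.preimage time_continuous) hwU hzV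
      exact disjoint_left.1 hd hx1 hx2
    have hge : ∀ x ∈ z.S ∆ w.S, z.t ≤ x := by
      intro x hx
      by_contra hlt
      push Not at hlt
      have hO : IsOpen (Ioi x ×ˢ (univ : Set F)) := isOpen_Ioi.prod isOpen_univ
      obtain ⟨y, ⟨p, hp, hpy⟩, ⟨p', hp', hpy'⟩⟩ := hsep _ _
        (line_isOpenMap (q := q) hq w.S _ hO) (line_isOpenMap (q := q) hq z.S _ hO)
        ⟨(w.t, w.θ), ⟨by rw [ht]; exact hlt, mem_univ _⟩, line_self w⟩
        ⟨(z.t, z.θ), ⟨hlt, mem_univ _⟩, line_self z⟩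
      have h1 := ((line_eq_iff (q := q)).1 (hpy'.trans hpy.symm)).1
      rw [mem_agree] at h1
      have h2 := h1 x (by rw [symmDiff_comm]; exact hx)
      have h3 : x < p'.1 := hp'.1
      linarith
    have hsub : z.S ∆ w.S ⊆ {z.t} := by
      intro x hx
      rw [Finset.mem_singleton]
      apply le_antisymm _ (hge x hx)
      rw [Finset.mem_symmDiff] at hx
      rcases hx with hx | hx
      · exact z.hS x hx.1
      · rw [← ht]; exact w.hS x hx.1
    refine ⟨ht, ?_⟩
    rcases Finset.subset_singleton_iff.1 hsub with h0 | h0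
    · exfalso
      have hS : z.S = w.S := symmDiff_eq_bot.1 h0
      have hθ : (w.t, w.θ) ≠ (z.t, z.θ) := by
        intro h
        rw [Prod.mk.injEq] at h
        apply hne
        ext1
        · exact h.1
        · exact hS.symm
        · exact h.2
      obtain ⟨U, V, hU, hV, hwU, hzV, hd⟩ := t2_separation hθ
      obtain ⟨y, ⟨p, hp, hpy⟩, ⟨p', hp', hpy'⟩⟩ := hsep _ _
        (line_isOpenMap (q := q) hq z.S _ hU) (line_isOpenMap (q := q) hq z.S _ hV)
        ⟨(w.t, w.θ), hwU, by rw [hS]; exact line_self w⟩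
        ⟨(z.t, z.θ), hzV, line_self z⟩
      have h1 := line_injective (q := q) z.S (hpy.trans hpy'.symm)
      rw [h1] at hp
      exact disjoint_left.1 hd hp hp'
    · rw [← h0, symmDiff_symmDiff_cancel_left]
  · rintro ⟨ht, hS⟩
    have hne : w.S ≠ z.S := by
      rw [hS]
      intro h
      have h1 : z.S ∆ (z.S ∆ {z.t}) = z.S ∆ z.S := by rw [h]
      rw [symmDiff_symmDiff_cancel_left, symmDiff_self] at h1
      exact Finset.singleton_ne_empty _ h1
    refine ⟨fun h => hne (by rw [h]), ?_⟩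
    intro U V hU hV hwU hzV
    by_cases hz : z.t ∈ z.S
    · -- `w` is on the base branch
      have hS' : w.S = z.S.erase z.t := by rw [hS, symmDiff_singleton_of_mem hz]
      apply nonsepD hq hs w z ht _ _ U V hU hV hwU hzV
      · rw [hS', ht]; exact Finset.notMem_erase _ _
      · rw [hS', ht, Finset.insert_erase hz]
    · have hS' : w.S = insert z.t z.S := by rw [hS, symmDiff_singleton_of_notMem hz]
      rw [inter_comm]
      exact nonsepD hq hs z w ht.symm hz hS' V U hV hU hzV hwU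

/-- The set of the non-separated points is a copy of the fibre. -/
theorem NH_homeoD [IsTopologicalAddGroup F] [T2Space F] (hq : Continuous q)
    (hs : DenseRange q) (z : MM q) : Nonempty (NH z ≃ₜ F) := by
  have hle : ∀ x ∈ z.S ∆ {z.t}, x ≤ z.t := by
    intro x hx
    rw [Finset.mem_symmDiff, Finset.mem_singleton] at hx
    rcases hx with hx | hx
    · exact z.hS x hx.1
    · exact hx.1.le
  have he1 : IsEmbedding fun a : F => (z.t, a) := isEmbedding_prodMkRight z.t
  have he : IsEmbedding fun a : F => line q (z.S ∆ {z.t}) (z.t, a) :=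
    (line_isOpenEmbedding hq _).isEmbedding.comp he1
  have hr : range (fun a : F => line q (z.S ∆ {z.t}) (z.t, a)) = NH z := by
    ext w
    rw [mem_NHD hq hs]
    constructor
    · rintro ⟨a, rfl⟩
      refine ⟨rfl, ?_⟩
      show (z.S ∆ {z.t}).filter (· ≤ z.t) = _
      exact Finset.filter_true_of_mem hle
    · rintro ⟨h1, h2⟩
      refine ⟨w.θ, ?_⟩
      show line q (z.S ∆ {z.t}) (z.t, w.θ) = w
      rw [← h1, ← h1] at *
      rw [← h2]
      exact line_self w
  exact ⟨((he.toHomeomorph).trans (Homeomorph.setCongr hr)).symm⟩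

theorem locallyEuclidean3 [IsTopologicalAddGroup F] (hq : Continuous q)
    (hF : ∀ a : F, ∃ V : Set F, IsOpen V ∧ a ∈ V ∧ Nonempty (V ≃ₜ ℝ × ℝ)) :
    LocallyEuclidean 3 (MM q) := by
  intro z
  obtain ⟨V, hV, haV, ⟨e⟩⟩ := hF z.θ
  refine ⟨line q z.S '' ((univ : Set ℝ) ×ˢ V), line_isOpenMap hq _ _ (isOpen_univ.prod hV),
    ⟨(z.t, z.θ), ⟨mem_univ _, haV⟩, line_self z⟩, ?_⟩
  have e1 : (line q z.S '' ((univ : Set ℝ) ×ˢ V)) ≃ₜ ((univ : Set ℝ) ×ˢ V : Set (ℝ × F)) :=
    ((line_isOpenEmbedding hq z.S).isEmbedding.homeomorphImage _).symm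
  have e2 : ((univ : Set ℝ) ×ˢ V : Set (ℝ × F)) ≃ₜ (↥(univ : Set ℝ) × ↥V) :=
    Homeomorph.Set.prod _ _
  have e3 : (↥(univ : Set ℝ) × ↥V) ≃ₜ ℝ × (ℝ × ℝ) := (Homeomorph.Set.univ ℝ).prodCongr e
  have e4 : (ℝ × (ℝ × ℝ)) ≃ₜ (Fin 3 → ℝ) :=
    { toFun := fun p => ![p.1, p.2.1, p.2.2]
      invFun := fun f => (f 0, (f 1, f 2))
      left_inv := fun p => rfl
      right_inv := fun f => by
        ext i
        fin_cases i <;> rfl
      continuous_toFun := by
        apply continuous_pi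
        intro i
        fin_cases i
        · exact continuous_fst
        · exact continuous_fst.comp continuous_snd
        · exact continuous_snd.comp continuous_snd
      continuous_invFun := by fun_prop }
  have e5 : (Fin 3 → ℝ) ≃ₜ EuclideanSpace ℝ (Fin 3) :=
    (EuclideanSpace.equiv (Fin 3) ℝ).toHomeomorph.symm
  exact ⟨e1.trans (e2.trans (e3.trans (e4.trans e5)))⟩

/-- The line of slope `√2` in the torus. -/
noncomputable def slope : ℝ →+ AddCircle (1 : ℝ) × AddCircle (1 : ℝ) :=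
  (QuotientAddGroup.mk' (AddSubgroup.zmultiples (1 : ℝ))).prod
    ((QuotientAddGroup.mk' (AddSubgroup.zmultiples (1 : ℝ))).comp
      (AddMonoidHom.mulLeft (Real.sqrt 2)))

theorem slope_apply (x : ℝ) :
    slope x = ((x : AddCircle (1 : ℝ)), ((Real.sqrt 2 * x : ℝ) : AddCircle (1 : ℝ))) := rfl

theorem slope_continuous : Continuous slope := by
  have h1 : Continuous fun x : ℝ => (x : AddCircle (1 : ℝ)) := AddCircle.continuous_mk' 1
  have h2 : Continuous fun x : ℝ => ((Real.sqrt 2 * x : ℝ) : AddCircle (1 : ℝ)) :=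
    h1.comp (continuous_const.mul continuous_id)
  exact h1.prodMk h2

theorem slope_dense : DenseRange slope := by
  have hirr : DenseRange (fun n : ℤ => n • ((Real.sqrt 2 : ℝ) : AddCircle (1 : ℝ))) := by
    rw [AddCircle.denseRange_zsmul_coe_iff, div_one]
    exact irrational_sqrt_two
  rintro ⟨a, b⟩
  rw [mem_closure_iff_nhds]
  intro O hO
  rw [nhds_prod_eq, mem_prod_iff] at hO
  obtain ⟨A, hA, B, hB, hAB⟩ := hO
  induction a using QuotientAddGroup.induction_on with
  | H x =>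
    have hB2 : ∀ᶠ c : AddCircle (1 : ℝ) in 𝓝 (b - ((Real.sqrt 2 * x : ℝ) : AddCircle (1 : ℝ))),
        ((Real.sqrt 2 * x : ℝ) : AddCircle (1 : ℝ)) + c ∈ B := by
      have hc : Tendsto (fun c : AddCircle (1 : ℝ) =>
          ((Real.sqrt 2 * x : ℝ) : AddCircle (1 : ℝ)) + c)
          (𝓝 (b - ((Real.sqrt 2 * x : ℝ) : AddCircle (1 : ℝ)))) (𝓝 b) := by
        have : Tendsto (fun c : AddCircle (1 : ℝ) =>
            ((Real.sqrt 2 * x : ℝ) : AddCircle (1 : ℝ)) + c)
            (𝓝 (b - ((Real.sqrt 2 * x : ℝ) : AddCircle (1 : ℝ))))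
            (𝓝 (((Real.sqrt 2 * x : ℝ) : AddCircle (1 : ℝ)) +
              (b - ((Real.sqrt 2 * x : ℝ) : AddCircle (1 : ℝ))))) :=
          tendsto_const_nhds.add tendsto_id
        rwa [add_sub_cancel] at this
      exact hc.eventually hB
    obtain ⟨_, ⟨n, rfl⟩, hBc⟩ := hirr.inter_nhds_nonempty hB2
    refine ⟨slope (x + n), hAB ⟨?_, ?_⟩, ⟨_, rfl⟩⟩
    · rw [slope_apply]
      have : ((x + n : ℝ) : AddCircle (1 : ℝ)) = (x : AddCircle (1 : ℝ)) := by
        rw [AddCircle.coe_add]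
        have h1 : ((n : ℝ) : AddCircle (1 : ℝ)) = 0 := by
          have := AddCircle.coe_zsmul (p := (1 : ℝ)) (n := n) (x := 1)
          rw [AddCircle.coe_period, smul_zero] at this
          simpa using this
        rw [h1, add_zero]
      show ((x + n : ℝ) : AddCircle (1 : ℝ)) ∈ A
      rw [this]
      exact mem_of_mem_nhds hA
    · show ((Real.sqrt 2 * (x + n) : ℝ) : AddCircle (1 : ℝ)) ∈ B
      have : ((Real.sqrt 2 * (x + n) : ℝ) : AddCircle (1 : ℝ))
          = ((Real.sqrt 2 * x : ℝ) : AddCircle (1 : ℝ)) +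
            n • ((Real.sqrt 2 : ℝ) : AddCircle (1 : ℝ)) := by
        rw [mul_add, AddCircle.coe_add, ← AddCircle.coe_zsmul, zsmul_eq_mul, mul_comm (Real.sqrt 2) (n : ℝ)]
      rw [this]; exact hBc

theorem torus_local (a : AddCircle (1 : ℝ) × AddCircle (1 : ℝ)) :
    ∃ V : Set (AddCircle (1 : ℝ) × AddCircle (1 : ℝ)), IsOpen V ∧ a ∈ V ∧
      Nonempty (V ≃ₜ ℝ × ℝ) := by
  obtain ⟨V1, h1, h1a, ⟨e1⟩⟩ := addCircle_local a.1
  obtain ⟨V2, h2, h2a, ⟨e2⟩⟩ := addCircle_local a.2
  exact ⟨V1 ×ˢ V2, h1.prod h2, ⟨h1a, h2a⟩,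
    ⟨(Homeomorph.Set.prod V1 V2).trans (e1.prodCongr e2)⟩⟩

/-- A 3-manifold whose non-separated sets are tori. -/
theorem torus_case : ∃ (X : Type) (_ : TopologicalSpace X), IsHNHManifold 3 X ∧
    ∀ z : X, Nonempty (NH z ≃ₜ Circle × Circle) := by
  have hq := slope_continuous
  have hs := slope_dense
  refine ⟨MM slope, instTop slope, ⟨connected', locallyEuclidean3 hq torus_local,
    homogeneous' hq, ?_⟩, ?_⟩
  · intro hT2
    set z : MM slope := line slope ∅ (0, 0) with hz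
    obtain ⟨e⟩ := NH_homeoD hq hs z
    obtain ⟨hne, hsep⟩ := (e.symm 0).2
    obtain ⟨U, V, hU, hV, hwU, hzV, hd⟩ := t2_separation hne
    obtain ⟨x, hx1, hx2⟩ := hsep U V hU hV hwU hzV
    exact disjoint_left.1 hd hx1 hx2
  · intro z
    obtain ⟨e⟩ := NH_homeoD hq hs z
    exact ⟨e.trans ((AddCircle.homeomorphCircle (by norm_num)).prodCongr
      (AddCircle.homeomorphCircle (by norm_num)))⟩

end Pool.Agent.X83.NH
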