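import Pool.Agent.X83.NH.Homog
import Pool.Agent.X83.NH.Defs

open Filter Topology Set
open scoped symmDiff

namespace Pool.Agent.X83.NH

variable {F : Type} [AddCommGroup F] [TopologicalSpace F] {q : ℝ →+ F}

/-- The points over the two branches at a node are not separated. -/
theorem nonsep [IsTopologicalAddGroup F] (hq : Continuous q) (hs : Function.Surjective q)
    (z w : MM q) (ht : z.t = w.t) (hz : z.t ∉ z.S) (hw : w.S = insert z.t z.S)
    (U V : Set (MM q)) (hU : IsOpen U) (hV : IsOpen V) (hzU : z ∈ U) (hwV : w ∈ V) :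
    (U ∩ V).Nonempty := by
  set t := z.t with htdef
  have hU' : IsOpen (line q z.S ⁻¹' U) := isOpen_iff.1 hU _
  have hV' : IsOpen (line q w.S ⁻¹' V) := isOpen_iff.1 hV _
  have h1 : ∀ᶠ u in 𝓝 t, (u, z.θ) ∈ line q z.S ⁻¹' U := by
    have hc : Continuous fun u : ℝ => (u, z.θ) := by fun_prop
    apply hc.continuousAt.eventually_mem
    apply hU'.mem_nhds
    show line q z.S (z.t, z.θ) ∈ U
    rw [line_self]; exact hzU
  have h2 : ∀ᶠ u in 𝓝 t, (u, w.θ) ∈ line q w.S ⁻¹' V := by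
    have hc : Continuous fun u : ℝ => (u, w.θ) := by fun_prop
    apply hc.continuousAt.eventually_mem
    apply hV'.mem_nhds
    rw [ht]
    show line q w.S (w.t, w.θ) ∈ V
    rw [line_self]; exact hwV
  have h3 : ∀ᶠ u in 𝓝 t, ∀ x ∈ z.S, x < u := by
    rw [Filter.eventually_all_finset]
    intro x hx
    have hlt : x < t := lt_of_le_of_ne (z.hS x hx) (fun h => hz (h ▸ hx))
    exact lt_mem_nhds hlt
  obtain ⟨ε, hε, hball⟩ := Metric.eventually_nhds_iff.1 (h1.and (h2.and h3))
  obtain ⟨c, hc⟩ := hs (z.θ - w.θ)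
  obtain ⟨r, hr0, hrε, hrc⟩ := tw_surj c ε hε
  have hu : dist (t - r) t < ε := by
    rw [Real.dist_eq]
    have : t - r - t = -r := by ring
    rw [this, abs_neg, abs_of_pos hr0]; exact hrε
  obtain ⟨hU2, hV2, hS2⟩ := hball hu
  refine ⟨line q z.S (t - r, z.θ), hU2, ?_⟩
  have e : line q z.S (t - r, z.θ) = line q w.S (t - r, w.θ) := by
    have hsum : ∑ x ∈ z.S, tw (x - (t - r)) = 0 :=
      Finset.sum_eq_zero fun x hx => tw_nonpos (by have := hS2 x hx; linarith)
    unfold line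
    dsimp only
    rw [MM.mk.injEq]
    refine ⟨rfl, ?_, ?_⟩
    · rw [hw, Finset.filter_insert, if_neg (by linarith)]
    · rw [hw, Finset.sum_insert hz, hsum, map_zero, add_zero, add_zero]
      have : t - (t - r) = r := by ring
      rw [this, hrc, hc]; abel
  rw [e]; exact hV2

theorem symmDiff_singleton_of_notMem {S : Finset ℝ} {t : ℝ} (h : t ∉ S) : S ∆ {t} = insert t S := by
  ext x
  rw [Finset.mem_symmDiff, Finset.mem_singleton, Finset.mem_insert]
  constructor
  · rintro (⟨h2, h3⟩ | ⟨h2, h3⟩)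
    · exact Or.inr h2
    · exact Or.inl h2
  · rintro (h2 | h2)
    · exact Or.inr ⟨h2, by rw [h2]; exact h⟩
    · exact Or.inl ⟨h2, fun h' => h (h' ▸ h2)⟩

theorem symmDiff_singleton_of_mem {S : Finset ℝ} {t : ℝ} (h : t ∈ S) : S ∆ {t} = S.erase t := by
  ext x
  rw [Finset.mem_symmDiff, Finset.mem_singleton, Finset.mem_erase]
  constructor
  · rintro (⟨h2, h3⟩ | ⟨h2, h3⟩)
    · exact ⟨h3, h2⟩
    · exact absurd (by rw [h2]; exact h) h3
  · rintro ⟨h2, h3⟩
    exact Or.inl ⟨h3, h2⟩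

/-- The non-separated points. -/
theorem mem_NH [IsTopologicalAddGroup F] [T2Space F] (hq : Continuous q)
    (hs : Function.Surjective q) (z w : MM q) :
    w ∈ NH z ↔ w.t = z.t ∧ w.S = z.S ∆ {z.t} := by
  constructor
  · rintro ⟨hne, hsep⟩
    -- the times
    have ht : w.t = z.t := by
      by_contra hcon
      obtain ⟨U, V, hU, hV, hwU, hzV, hd⟩ := t2_separation hcon
      obtain ⟨x, hx1, hx2⟩ := hsep _ _ (hU.preimage time_continuous)
        (hV.preimage time_continuous) hwU hzV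
      exact disjoint_left.1 hd hx1 hx2
    have hge : ∀ x ∈ z.S ∆ w.S, z.t ≤ x := by
      intro x hx
      by_contra hlt
      push Not at hlt
      have hO : IsOpen (Ioi x ×ˢ (univ : Set F)) := isOpen_Ioi.prod isOpen_univ
      obtain ⟨y, ⟨p, hp, hpy⟩, ⟨p', hp', hpy'⟩⟩ := hsep _ _
        (line_isOpenMap (q := q) hq w.S _ hO) (line_isOpenMap (q := q) hq z.S _ hO)
        ⟨(w.t, w.θ), ⟨by rw [ht]; exact hlt, mem_univ _⟩, line_self w⟩
        ⟨(z.t, z.θ), ⟨hlt, mem_univ _⟩, line_self z⟩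
      have h1 := ((line_eq_iff (q := q)).1 (hpy'.trans hpy.symm)).1
      rw [mem_agree] at h1
      have h2 := h1 x (by rw [symmDiff_comm]; exact hx)
      have h3 : x < p'.1 := hp'.1
      linarith
    have hsub : z.S ∆ w.S ⊆ {z.t} := by
      intro x hx
      rw [Finset.mem_singleton]
      apply le_antisymm _ (hge x hx)
      rw [Finset.mem_symmDiff] at hx
      rcases hx with hx | hx
      · exact z.hS x hx.1
      · rw [← ht]; exact w.hS x hx.1
    refine ⟨ht, ?_⟩
    rcases Finset.subset_singleton_iff.1 hsub with h0 | h0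
    · exfalso
      have hS : z.S = w.S := symmDiff_eq_bot.1 h0
      have hθ : (w.t, w.θ) ≠ (z.t, z.θ) := by
        intro h
        rw [Prod.mk.injEq] at h
        apply hne
        ext1
        · exact h.1
        · exact hS.symm
        · exact h.2
      obtain ⟨U, V, hU, hV, hwU, hzV, hd⟩ := t2_separation hθ
      obtain ⟨y, ⟨p, hp, hpy⟩, ⟨p', hp', hpy'⟩⟩ := hsep _ _
        (line_isOpenMap (q := q) hq z.S _ hU) (line_isOpenMap (q := q) hq z.S _ hV)
        ⟨(w.t, w.θ), hwU, by rw [hS]; exact line_self w⟩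
        ⟨(z.t, z.θ), hzV, line_self z⟩
      have h1 := line_injective (q := q) z.S (hpy.trans hpy'.symm)
      rw [h1] at hp
      exact disjoint_left.1 hd hp hp'
    · rw [← h0, symmDiff_symmDiff_cancel_left]
  · rintro ⟨ht, hS⟩
    have hne : w.S ≠ z.S := by
      rw [hS]
      intro h
      have h1 : z.S ∆ (z.S ∆ {z.t}) = z.S ∆ z.S := by rw [h]
      rw [symmDiff_symmDiff_cancel_left, symmDiff_self] at h1
      exact Finset.singleton_ne_empty _ h1
    refine ⟨fun h => hne (by rw [h]), ?_⟩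
    intro U V hU hV hwU hzV
    by_cases hz : z.t ∈ z.S
    · -- `w` is on the base branch
      have hS' : w.S = z.S.erase z.t := by rw [hS, symmDiff_singleton_of_mem hz]
      apply nonsep hq hs w z ht _ _ U V hU hV hwU hzV
      · rw [hS', ht]; exact Finset.notMem_erase _ _
      · rw [hS', ht, Finset.insert_erase hz]
    · have hS' : w.S = insert z.t z.S := by rw [hS, symmDiff_singleton_of_notMem hz]
      rw [inter_comm]
      exact nonsep hq hs z w ht.symm hz hS' V U hV hU hzV hwU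

/-- The set of the non-separated points is a copy of the fibre. -/
theorem NH_homeo [IsTopologicalAddGroup F] [T2Space F] (hq : Continuous q)
    (hs : Function.Surjective q) (z : MM q) : Nonempty (NH z ≃ₜ F) := by
  have hle : ∀ x ∈ z.S ∆ {z.t}, x ≤ z.t := by
    intro x hx
    rw [Finset.mem_symmDiff, Finset.mem_singleton] at hx
    rcases hx with hx | hx
    · exact z.hS x hx.1
    · exact hx.1.le
  have he1 : IsEmbedding fun a : F => (z.t, a) := isEmbedding_prodMkRight z.t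
  have he : IsEmbedding fun a : F => line q (z.S ∆ {z.t}) (z.t, a) :=
    (line_isOpenEmbedding hq _).isEmbedding.comp he1
  have hr : range (fun a : F => line q (z.S ∆ {z.t}) (z.t, a)) = NH z := by
    ext w
    rw [mem_NH hq hs]
    constructor
    · rintro ⟨a, rfl⟩
      refine ⟨rfl, ?_⟩
      show (z.S ∆ {z.t}).filter (· ≤ z.t) = _
      exact Finset.filter_true_of_mem hle
    · rintro ⟨h1, h2⟩
      refine ⟨w.θ, ?_⟩
      show line q (z.S ∆ {z.t}) (z.t, w.θ) = w
      rw [← h1, ← h1] at *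
      rw [← h2]
      exact line_self w
  exact ⟨((he.toHomeomorph).trans (Homeomorph.setCongr hr)).symm⟩

theorem locallyEuclidean' [IsTopologicalAddGroup F] (hq : Continuous q)
    (hF : ∀ a : F, ∃ V : Set F, IsOpen V ∧ a ∈ V ∧ Nonempty (V ≃ₜ ℝ)) :
    LocallyEuclidean 2 (MM q) := by
  intro z
  obtain ⟨V, hV, haV, ⟨e⟩⟩ := hF z.θ
  refine ⟨line q z.S '' ((univ : Set ℝ) ×ˢ V), line_isOpenMap hq _ _ (isOpen_univ.prod hV),
    ⟨(z.t, z.θ), ⟨mem_univ _, haV⟩, line_self z⟩, ?_⟩
  have e1 : (line q z.S '' ((univ : Set ℝ) ×ˢ V)) ≃ₜ ((univ : Set ℝ) ×ˢ V : Set (ℝ × F)) :=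
    ((line_isOpenEmbedding hq z.S).isEmbedding.homeomorphImage _).symm
  have e2 : ((univ : Set ℝ) ×ˢ V : Set (ℝ × F)) ≃ₜ (↥(univ : Set ℝ) × ↥V) :=
    Homeomorph.Set.prod _ _
  have e3 : (↥(univ : Set ℝ) × ↥V) ≃ₜ ℝ × ℝ := (Homeomorph.Set.univ ℝ).prodCongr e
  have e4 : (ℝ × ℝ) ≃ₜ (Fin 2 → ℝ) := Homeomorph.finTwoArrow.symm
  have e5 : (Fin 2 → ℝ) ≃ₜ EuclideanSpace ℝ (Fin 2) :=
    (EuclideanSpace.equiv (Fin 2) ℝ).toHomeomorph.symm
  exact ⟨e1.trans (e2.trans (e3.trans (e4.trans e5)))⟩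

theorem connected' [ConnectedSpace F] : ConnectedSpace (MM q) := by
  have : Nonempty (MM q) := ⟨line q ∅ (0, 0)⟩
  have hpre : ∀ S, IsPreconnected (range (line q S)) := fun S =>
    isPreconnected_range (line_continuous S)
  have h : IsPreconnected (univ : Set (MM q)) := by
    apply isPreconnected_of_forall (line q ∅ (0, 0))
    intro z _
    -- a common time
    obtain ⟨m, hm⟩ : ∃ m : ℝ, ∀ x ∈ z.S, m < x := by
      obtain ⟨m, hm⟩ := (z.S.finite_toSet).bddBelow
      exact ⟨m - 1, fun x hx => by have := hm hx; linarith⟩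
    refine ⟨range (line q ∅) ∪ range (line q z.S), subset_univ _, Or.inl ⟨_, rfl⟩,
      Or.inr ⟨(z.t, z.θ), line_self z⟩, ?_⟩
    have hag : m ∈ agree ∅ z.S := by
      rw [mem_agree]
      intro x hx
      apply hm
      rw [Finset.mem_symmDiff] at hx
      rcases hx with hx | hx
      · exact absurd hx.1 (Finset.notMem_empty _)
      · exact hx.1
    have hcommon : line q z.S (m, (0 : F)) = line q ∅ (m, 0 + q (gg ∅ z.S m)) :=
      (line_eq_iff (q := q) (S := ∅) (S' := z.S) (p' := (m, (0 : F)))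
        (p := (m, 0 + q (gg ∅ z.S m)))).2 ⟨hag, rfl⟩
    exact IsPreconnected.union (line q z.S (m, (0 : F))) ⟨_, hcommon.symm⟩ ⟨_, rfl⟩
      (hpre _) (hpre _)
  exact { isPreconnected_univ := h, toNonempty := this }

/-- The general statement. -/
theorem exists_HNH [IsTopologicalAddGroup F] [T2Space F] [ConnectedSpace F] (q : ℝ →+ F)
    (hq : Continuous q) (hs : Function.Surjective q)
    (hF : ∀ a : F, ∃ V : Set F, IsOpen V ∧ a ∈ V ∧ Nonempty (V ≃ₜ ℝ)) :
    ∃ (X : Type) (_ : TopologicalSpace X), IsHNHManifold 2 X ∧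
      ∀ z : X, Nonempty (NH z ≃ₜ F) := by
  refine ⟨MM q, instTop q, ⟨connected', locallyEuclidean' hq hF, homogeneous' hq, ?_⟩,
    NH_homeo hq hs⟩
  intro hT2
  set z : MM q := line q ∅ (0, 0) with hz
  obtain ⟨e⟩ := NH_homeo hq hs z
  obtain ⟨hne, hsep⟩ := (e.symm 0).2
  obtain ⟨U, V, hU, hV, hwU, hzV, hd⟩ := t2_separation hne
  obtain ⟨x, hx1, hx2⟩ := hsep U V hU hV hwU hzV
  exact disjoint_left.1 hd hx1 hx2

/-- Q2. -/
theorem real_case : ∃ (X : Type) (_ : TopologicalSpace X), IsHNHManifold 2 X ∧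
    ∀ z : X, Nonempty (NH z ≃ₜ ℝ) :=
  exists_HNH (AddMonoidHom.id ℝ) continuous_id Function.surjective_id
    fun a => ⟨univ, isOpen_univ, mem_univ a, ⟨Homeomorph.Set.univ ℝ⟩⟩

theorem addCircle_local (a : AddCircle (1 : ℝ)) :
    ∃ V : Set (AddCircle (1 : ℝ)), IsOpen V ∧ a ∈ V ∧ Nonempty (V ≃ₜ ℝ) := by
  induction a using QuotientAddGroup.induction_on with
  | H x =>
    obtain ⟨e, hx, he⟩ := AddCircle.isLocalHomeomorph_coe (1 : ℝ) x
    obtain ⟨r, hr, hball⟩ := Metric.isOpen_iff.1 e.open_source x hx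
    refine ⟨e '' Metric.ball x r, e.isOpen_image_of_subset_source Metric.isOpen_ball hball,
      ⟨x, Metric.mem_ball_self hr, ?_⟩, ?_⟩
    · rw [← he]
    · have e1 : (Metric.ball x r) ≃ₜ (e '' Metric.ball x r) :=
        e.homeomorphOfImageSubsetSource hball rfl
      have e2 : (OpenPartialHomeomorph.univBall (E := ℝ) x r).source ≃ₜ
          (OpenPartialHomeomorph.univBall (E := ℝ) x r).target :=
        (OpenPartialHomeomorph.univBall (E := ℝ) x r).toHomeomorphSourceTarget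
      have e3 := Homeomorph.setCongr (OpenPartialHomeomorph.univBall_source (E := ℝ) x r)
      have e4 := Homeomorph.setCongr (OpenPartialHomeomorph.univBall_target (E := ℝ) x hr)
      exact ⟨e1.symm.trans (e4.symm.trans (e2.symm.trans (e3.trans (Homeomorph.Set.univ ℝ))))⟩

/-- Q1. -/
theorem circle_case : ∃ (X : Type) (_ : TopologicalSpace X), IsHNHManifold 2 X ∧
    ∀ z : X, Nonempty (NH z ≃ₜ Circle) := by
  obtain ⟨X, hX, h1, h2⟩ := exists_HNH (F := AddCircle (1 : ℝ))
    (QuotientAddGroup.mk' (AddSubgroup.zmultiples (1 : ℝ)))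
    (by exact continuous_quot_mk) (QuotientAddGroup.mk'_surjective _) addCircle_local
  refine ⟨X, hX, h1, fun z => ?_⟩
  obtain ⟨e⟩ := h2 z
  exact ⟨e.trans (AddCircle.homeomorphCircle (by norm_num))⟩

end Pool.Agent.X83.NH
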