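import Pool.Agent.X83.NH.Space

open Filter Topology Set
open scoped symmDiff

namespace Pool.Agent.X83.NH

variable {F : Type} [AddCommGroup F] [TopologicalSpace F] {q : ℝ →+ F}

/-- The time change as an order isomorphism. -/
noncomputable def phi (s : ℝ) : ℝ ≃o ℝ :=
  (ph_strictMono s).orderIsoOfSurjective (ph s) (ph_surj s)

theorem phi_apply (s u : ℝ) : phi s u = ph s u := rfl

theorem DD_translate (c : ℝ) (a : F) (S : Finset ℝ) :
    DD q (OrderIso.addRight c) ∅ (fun _ => a) S = fun _ => a := by
  ext u
  unfold DD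
  have e : (S.map (OrderIso.addRight c).toEquiv.toEmbedding) ∆ (∅ : Finset ℝ)
      = S.map (OrderIso.addRight c).toEquiv.toEmbedding := by
    exact symmDiff_bot _
  rw [e, Finset.sum_map]
  have e2 : ∑ x ∈ S, tw ((OrderIso.addRight c).toEquiv.toEmbedding x - (OrderIso.addRight c) u)
      = ∑ x ∈ S, tw (x - u) := by
    apply Finset.sum_congr rfl
    intro x _
    congr 1
    show (x + c) - (u + c) = x - u
    ring
  rw [e2]
  abel

theorem DD_swap_continuous (hq : Continuous q) (s : ℝ) (S : Finset ℝ) :
    Continuous (DD q (phi s) {s} (fun u => q (tw (s - ph s u))) S) := by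
  have hs : phi s s = s := ph_self s
  -- the contribution of the other nodes
  have hE : ∀ T : Finset ℝ, s ∉ T →
      Continuous fun u : ℝ => ∑ x ∈ T, (tw (x - u) - tw (ph s x - ph s u)) := by
    intro T hT
    apply continuous_finset_sum
    intro x hx
    exact EE_continuous s x fun h => hT (h ▸ hx)
  by_cases hsS : s ∈ S
  · have e1 : (S.map (phi s).toEquiv.toEmbedding) ∆ {s}
        = (S.erase s).map (phi s).toEquiv.toEmbedding := by
      ext x
      rw [Finset.mem_symmDiff, Finset.mem_singleton, Finset.mem_map_equiv, Finset.mem_map_equiv,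
        Finset.mem_erase]
      have h1 : (phi s).toEquiv.symm x = s ↔ x = s := by
        rw [Equiv.symm_apply_eq]
        show x = phi s s ↔ x = s
        rw [hs]
      constructor
      · rintro (⟨h2, h3⟩ | ⟨h2, h3⟩)
        · exact ⟨fun h => h3 (h1.1 h), h2⟩
        · exact absurd (by rw [h1.2 h2]; exact hsS) h3
      · rintro ⟨h2, h3⟩
        exact Or.inl ⟨h3, fun h => h2 (h1.2 h)⟩
    have e2 : DD q (phi s) {s} (fun u => q (tw (s - ph s u))) S = fun u =>
        q (∑ x ∈ S.erase s, (tw (x - u) - tw (ph s x - ph s u))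
          + (tw (s - u) + tw ((s - u) * |s - u|))) := by
      ext u
      unfold DD
      rw [e1, Finset.sum_map, ← Finset.add_sum_erase S _ hsS, Finset.sum_sub_distrib, ← map_add,
        ← map_sub]
      congr 1
      have e3 : ∑ x ∈ S.erase s, tw ((phi s).toEquiv.toEmbedding x - (phi s) u)
          = ∑ x ∈ S.erase s, tw (ph s x - ph s u) := rfl
      rw [e3]
      have e4 : s - ph s u = (s - u) * |s - u| := by unfold ph; ring
      rw [e4]; ring
    rw [e2]
    refine hq.comp ((hE _ (Finset.notMem_erase s S)).add ?_)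
    exact KK_continuous.comp (continuous_const.sub continuous_id)
  · have hsn : s ∉ S.map (phi s).toEquiv.toEmbedding := by
      rw [Finset.mem_map_equiv]
      have h1 : (phi s).toEquiv.symm s = s := by
        rw [Equiv.symm_apply_eq]
        exact hs.symm
      rw [h1]; exact hsS
    have e1 : (S.map (phi s).toEquiv.toEmbedding) ∆ {s}
        = insert s (S.map (phi s).toEquiv.toEmbedding) := by
      ext x
      rw [Finset.mem_symmDiff, Finset.mem_singleton, Finset.mem_insert]
      constructor
      · rintro (⟨h2, h3⟩ | ⟨h2, h3⟩)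
        · exact Or.inr h2
        · exact Or.inl h2
      · rintro (h2 | h2)
        · exact Or.inr ⟨h2, by rw [h2]; exact hsn⟩
        · exact Or.inl ⟨h2, fun h => hsn (h ▸ h2)⟩
    have e2 : DD q (phi s) {s} (fun u => q (tw (s - ph s u))) S = fun u =>
        q (∑ x ∈ S, (tw (x - u) - tw (ph s x - ph s u))) := by
      ext u
      unfold DD
      rw [e1, Finset.sum_insert hsn, Finset.sum_map, Finset.sum_sub_distrib, ← map_add,
        ← map_sub]
      congr 1
      have e3 : ∑ x ∈ S, tw ((phi s).toEquiv.toEmbedding x - (phi s) u)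
          = ∑ x ∈ S, tw (ph s x - ph s u) := rfl
      rw [e3]
      show _ + tw (s - ph s u) - (tw (s - ph s u) + _) = _
      ring
    rw [e2]
    exact hq.comp (hE _ hsS)

/-- Every point can be moved to the base point. -/
theorem to_base [IsTopologicalAddGroup F] (hq : Continuous q) : ∀ n : ℕ, ∀ z : MM q,
    z.S.card = n → ∃ h : MM q ≃ₜ MM q, h z = line q ∅ (0, 0) := by
  intro n
  induction n with
  | zero =>
    intro z hz
    rw [Finset.card_eq_zero] at hz
    obtain ⟨g, hg⟩ := exists_homeo (q := q) hq (OrderIso.addRight (-z.t)) ∅ (fun _ => -z.θ)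
      (fun S => by rw [DD_translate]; exact continuous_const)
    refine ⟨g, ?_⟩
    rw [hg]
    unfold GG line
    rw [Equiv.coe_fn_mk, MM.mk.injEq]
    refine ⟨?_, ?_, ?_⟩
    · show z.t + -z.t = 0
      ring
    · rw [hz]; rfl
    · simp
  | succ n ih =>
    intro z hz
    obtain ⟨s, hs⟩ : z.S.Nonempty := by
      rw [← Finset.card_pos]; omega
    obtain ⟨g, hg⟩ := exists_homeo (q := q) hq (phi s) {s} (fun u => q (tw (s - ph s u)))
      (DD_swap_continuous hq s)
    have hcard : (g z).S.card = n := by
      rw [hg]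
      show ((z.S.map (phi s).toEquiv.toEmbedding) ∆ (({s} : Finset ℝ).filter (· ≤ phi s z.t))).card
        = n
      have h1 : ({s} : Finset ℝ).filter (· ≤ phi s z.t) = {s} := by
        apply Finset.filter_true_of_mem
        intro x hx
        rw [Finset.mem_singleton] at hx
        rw [hx]
        calc s = phi s s := (ph_self s).symm
          _ ≤ phi s z.t := (phi s).monotone (z.hS s hs)
      have h2 : (z.S.map (phi s).toEquiv.toEmbedding) ∆ {s}
          = (z.S.map (phi s).toEquiv.toEmbedding).erase s := by
        have h3 : s ∈ z.S.map (phi s).toEquiv.toEmbedding := by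
          rw [Finset.mem_map_equiv]
          have h4 : (phi s).toEquiv.symm s = s := by
            rw [Equiv.symm_apply_eq]
            exact (ph_self s).symm
          rw [h4]; exact hs
        ext x
        rw [Finset.mem_symmDiff, Finset.mem_singleton, Finset.mem_erase]
        constructor
        · rintro (⟨h5, h6⟩ | ⟨h5, h6⟩)
          · exact ⟨h6, h5⟩
          · exact absurd (by rw [h5]; exact h3) h6
        · rintro ⟨h5, h6⟩
          exact Or.inl ⟨h6, h5⟩
      have h3 : s ∈ z.S.map (phi s).toEquiv.toEmbedding := by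
        rw [Finset.mem_map_equiv]
        have h4 : (phi s).toEquiv.symm s = s := by
          rw [Equiv.symm_apply_eq]
          exact (ph_self s).symm
        rw [h4]; exact hs
      rw [h1, h2, Finset.card_erase_of_mem h3, Finset.card_map, hz]
      rfl
    obtain ⟨h, hh⟩ := ih (g z) hcard
    exact ⟨g.trans h, hh⟩

theorem homogeneous' [IsTopologicalAddGroup F] (hq : Continuous q) (z w : MM q) :
    ∃ h : MM q ≃ₜ MM q, h z = w := by
  obtain ⟨g, hg⟩ := to_base hq _ z rfl
  obtain ⟨g', hg'⟩ := to_base hq _ w rfl
  refine ⟨g.trans g'.symm, ?_⟩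
  show g'.symm (g z) = w
  rw [hg, ← hg', Homeomorph.symm_apply_apply]

end Pool.Agent.X83.NH
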