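import Pool.Agent.X83.NH.Twist

open Filter Topology Set
open scoped symmDiff

namespace Pool.Agent.X83.NH

/-- The points of the manifold: a time, the finite set of the times of the branchings taken, and a
point of the fibre. -/
@[ext] structure MM {F : Type} [AddCommGroup F] (q : ℝ →+ F) where
  t : ℝ
  S : Finset ℝ
  hS : ∀ x ∈ S, x ≤ t
  θ : F

variable {F : Type} [AddCommGroup F] [TopologicalSpace F] {q : ℝ →+ F}

/-- The coordinate line (times the fibre) of the finite set `S`. -/
noncomputable def line (q : ℝ →+ F) (S : Finset ℝ) (p : ℝ × F) : MM q :=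
  ⟨p.1, S.filter (· ≤ p.1), fun x hx => (Finset.mem_filter.1 hx).2,
    p.2 + q (∑ x ∈ S, tw (x - p.1))⟩

noncomputable instance instTop (q : ℝ →+ F) : TopologicalSpace (MM q) :=
  ⨆ S : Finset ℝ, TopologicalSpace.coinduced (line q S) inferInstance

theorem isOpen_iff {U : Set (MM q)} : IsOpen U ↔ ∀ S, IsOpen (line q S ⁻¹' U) := by
  unfold IsOpen
  change @IsOpen _ (instTop q) U ↔ _
  unfold instTop
  rw [isOpen_iSup_iff]
  rfl

theorem cont_iff {Y : Type*} [TopologicalSpace Y] {f : MM q → Y} :
    Continuous f ↔ ∀ S, Continuous (f ∘ line q S) := by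
  constructor
  · intro h S
    rw [continuous_def] at h ⊢
    intro U hU
    exact isOpen_iff.1 (h U hU) S
  · intro h
    rw [continuous_def]
    intro U hU
    rw [isOpen_iff]
    intro S
    exact (h S).isOpen_preimage U hU

theorem line_continuous (S : Finset ℝ) : Continuous (line q S) := by
  have h := (cont_iff (q := q) (f := id)).1 continuous_id S
  simpa using h

theorem line_injective (S : Finset ℝ) : Function.Injective (line q S) := by
  rintro ⟨u, a⟩ ⟨v, b⟩ h
  have h1 : u = v := congrArg MM.t h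
  subst h1
  have h2 : a + q (∑ x ∈ S, tw (x - u)) = b + q (∑ x ∈ S, tw (x - u)) := congrArg MM.θ h
  rw [add_right_cancel h2]

/-- The times at which two lines agree. -/
def agree (S S' : Finset ℝ) : Set ℝ := {u | S.filter (· ≤ u) = S'.filter (· ≤ u)}

theorem mem_agree {S S' : Finset ℝ} {u : ℝ} : u ∈ agree S S' ↔ ∀ x ∈ S ∆ S', u < x := by
  unfold agree
  rw [mem_setOf_eq, Finset.ext_iff]
  constructor
  · intro h x hx
    by_contra hcon
    push Not at hcon
    have := h x
    rw [Finset.mem_filter, Finset.mem_filter] at this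
    rw [Finset.mem_symmDiff] at hx
    tauto
  · intro h x
    rw [Finset.mem_filter, Finset.mem_filter]
    by_cases hx : x ∈ S ∆ S'
    · have := h x hx
      constructor
      · rintro ⟨_, h1⟩; linarith
      · rintro ⟨_, h1⟩; linarith
    · rw [Finset.mem_symmDiff] at hx
      tauto

theorem agree_open (S S' : Finset ℝ) : IsOpen (agree S S') := by
  have e : agree S S' = ⋂ x ∈ S ∆ S', Iio x := by
    ext u
    rw [mem_agree]
    simp
  rw [e]
  exact isOpen_biInter_finset fun x _ => isOpen_Iio

/-- The coordinate change. -/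
noncomputable def gg (S S' : Finset ℝ) (u : ℝ) : ℝ :=
  ∑ x ∈ S', tw (x - u) - ∑ x ∈ S, tw (x - u)

theorem gg_continuousOn (S S' : Finset ℝ) : ContinuousOn (gg S S') (agree S S') := by
  have e : gg S S' = fun u => ∑ x ∈ S' \ S, tw (x - u) - ∑ x ∈ S \ S', tw (x - u) := by
    ext u
    unfold gg
    have h1 := Finset.sum_inter_add_sum_sdiff S' S (fun x => tw (x - u))
    have h2 := Finset.sum_inter_add_sum_sdiff S S' (fun x => tw (x - u))
    rw [← h1, ← h2, Finset.inter_comm S' S]; ring
  rw [e]
  intro u hu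
  rw [mem_agree] at hu
  apply ContinuousAt.continuousWithinAt
  have hc : ∀ x, u < x → ContinuousAt (fun u : ℝ => tw (x - u)) u := fun x hx =>
    ContinuousAt.comp (g := tw) (f := fun u : ℝ => x - u) (tw_continuousAt (sub_pos.2 hx))
      (by fun_prop)
  apply ContinuousAt.sub
  · apply tendsto_finsetSum
    intro x hx
    apply hc x
    apply hu
    rw [Finset.mem_sdiff] at hx
    rw [Finset.mem_symmDiff]; tauto
  · apply tendsto_finsetSum
    intro x hx
    apply hc x
    apply hu
    rw [Finset.mem_sdiff] at hx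
    rw [Finset.mem_symmDiff]; tauto

theorem line_eq_iff {S S' : Finset ℝ} {p p' : ℝ × F} :
    line q S' p' = line q S p ↔
      p'.1 ∈ agree S S' ∧ p = (p'.1, p'.2 + q (gg S S' p'.1)) := by
  obtain ⟨u, a⟩ := p
  obtain ⟨v, b⟩ := p'
  constructor
  · intro h
    have h1 : v = u := congrArg MM.t h
    subst h1
    have h2 : S'.filter (· ≤ v) = S.filter (· ≤ v) := congrArg MM.S h
    have h3 : b + q (∑ x ∈ S', tw (x - v)) = a + q (∑ x ∈ S, tw (x - v)) := congrArg MM.θ h
    refine ⟨h2.symm, ?_⟩
    unfold gg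
    dsimp only
    rw [map_sub]
    congr 1
    rw [← add_sub_assoc, h3, add_sub_cancel_right]
  · rintro ⟨h1, h2⟩
    rw [Prod.mk.injEq] at h2
    obtain ⟨h2, h3⟩ := h2
    dsimp only at h1 h2 h3
    subst h2
    unfold line
    dsimp only
    rw [MM.mk.injEq]
    refine ⟨rfl, h1.symm, ?_⟩
    rw [h3]
    unfold gg
    rw [map_sub]
    abel

section top

variable [IsTopologicalAddGroup F]

theorem line_isOpenMap (hq : Continuous q) (S : Finset ℝ) : IsOpenMap (line q S) := by
  intro U hU
  rw [isOpen_iff]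
  intro S'
  have e : line q S' ⁻¹' (line q S '' U) = (agree S S' ×ˢ univ) ∩
      (fun p : ℝ × F => (p.1, p.2 + q (gg S S' p.1))) ⁻¹' U := by
    ext p
    simp only [mem_preimage, mem_image, mem_inter_iff, mem_prod, mem_univ, and_true]
    constructor
    · rintro ⟨p', hp', h⟩
      have h' := (line_eq_iff (q := q)).1 h.symm
      exact ⟨h'.1, h'.2 ▸ hp'⟩
    · rintro ⟨h1, h2⟩
      exact ⟨_, h2, ((line_eq_iff (q := q)).2 ⟨h1, rfl⟩).symm⟩
  rw [e]
  apply ContinuousOn.isOpen_inter_preimage _ ((agree_open S S').prod isOpen_univ) hU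
  have h1 : ContinuousOn (fun p : ℝ × F => gg S S' p.1) (agree S S' ×ˢ univ) :=
    (gg_continuousOn S S').comp continuous_fst.continuousOn (fun p hp => hp.1)
  exact continuous_fst.continuousOn.prodMk (continuous_snd.continuousOn.add
    (hq.comp_continuousOn h1))

theorem line_isOpenEmbedding (hq : Continuous q) (S : Finset ℝ) :
    IsOpenEmbedding (line q S) :=
  IsOpenEmbedding.of_continuous_injective_isOpenMap (line_continuous S) (line_injective S)
    (line_isOpenMap hq S)

end top

theorem line_self (z : MM q) : line q z.S (z.t, z.θ) = z := by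
  unfold line
  ext1
  · rfl
  · dsimp only
    exact Finset.filter_true_of_mem z.hS
  · dsimp only
    have : ∑ x ∈ z.S, tw (x - z.t) = 0 :=
      Finset.sum_eq_zero fun x hx => tw_nonpos (sub_nonpos.2 (z.hS x hx))
    rw [this, map_zero, add_zero]

theorem time_continuous : Continuous (MM.t : MM q → ℝ) := by
  rw [cont_iff]
  intro S
  exact continuous_fst

/-- The general self-maps. -/
noncomputable def GG (q : ℝ →+ F) (φ : ℝ ≃o ℝ) (B : Finset ℝ) (c : ℝ → F) : MM q ≃ MM q where
  toFun z := ⟨φ z.t, (z.S.map φ.toEquiv.toEmbedding) ∆ (B.filter (· ≤ φ z.t)), by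
    intro x hx
    rw [Finset.mem_symmDiff, Finset.mem_filter, Finset.mem_map_equiv] at hx
    rcases hx with hx | hx
    · have := z.hS _ hx.1
      have h2 : φ.symm x ≤ z.t := this
      exact (φ.symm_apply_le).1 h2
    · exact hx.1.2, z.θ + c z.t⟩
  invFun z := ⟨φ.symm z.t, (z.S ∆ (B.filter (· ≤ z.t))).map φ.symm.toEquiv.toEmbedding, by
    intro x hx
    rw [Finset.mem_map_equiv] at hx
    have hx' : φ x ∈ z.S ∆ (B.filter (· ≤ z.t)) := hx
    rw [Finset.mem_symmDiff, Finset.mem_filter] at hx'
    rw [φ.le_symm_apply]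
    rcases hx' with hx' | hx'
    · exact z.hS _ hx'.1
    · exact hx'.1.2, z.θ - c (φ.symm z.t)⟩
  left_inv z := by
    ext1
    · simp
    · dsimp only
      rw [symmDiff_symmDiff_cancel_right]
      ext x
      rw [Finset.mem_map_equiv, Finset.mem_map_equiv]
      simp
    · simp
  right_inv z := by
    ext1
    · simp
    · dsimp only
      rw [OrderIso.apply_symm_apply]
      have : (((z.S ∆ (B.filter (· ≤ z.t))).map φ.symm.toEquiv.toEmbedding).map
          φ.toEquiv.toEmbedding) = z.S ∆ (B.filter (· ≤ z.t)) := by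
        ext x
        rw [Finset.mem_map_equiv, Finset.mem_map_equiv]
        simp
      rw [this, symmDiff_symmDiff_cancel_right]
    · simp

/-- The coordinate form of the self-maps. -/
noncomputable def DD (q : ℝ →+ F) (φ : ℝ ≃o ℝ) (B : Finset ℝ) (c : ℝ → F) (S : Finset ℝ)
    (u : ℝ) : F :=
  q (∑ x ∈ S, tw (x - u)) + c u
    - q (∑ y ∈ (S.map φ.toEquiv.toEmbedding) ∆ B, tw (y - φ u))

theorem GG_line (φ : ℝ ≃o ℝ) (B : Finset ℝ) (c : ℝ → F) (S : Finset ℝ) (p : ℝ × F) :
    GG q φ B c (line q S p) =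
      line q ((S.map φ.toEquiv.toEmbedding) ∆ B) (φ p.1, p.2 + DD q φ B c S p.1) := by
  unfold GG line DD
  rw [Equiv.coe_fn_mk, MM.mk.injEq]
  refine ⟨rfl, ?_, ?_⟩
  · ext x
    simp only [Finset.mem_symmDiff, Finset.mem_filter, Finset.mem_map_equiv]
    have h : φ.toEquiv.symm x ≤ p.1 ↔ x ≤ φ p.1 := φ.symm_apply_le
    rw [h]
    tauto
  · dsimp only
    abel

/-- The self-maps as homeomorphisms. -/
theorem exists_homeo [IsTopologicalAddGroup F] (hq : Continuous q) (φ : ℝ ≃o ℝ) (B : Finset ℝ)
    (c : ℝ → F) (h : ∀ S, Continuous (DD q φ B c S)) :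
    ∃ g : MM q ≃ₜ MM q, ∀ z, g z = GG q φ B c z := by
  have hcont : Continuous (GG q φ B c) := by
    rw [cont_iff]
    intro S
    have e : (GG q φ B c) ∘ line q S = line q ((S.map φ.toEquiv.toEmbedding) ∆ B) ∘
        fun p : ℝ × F => (φ p.1, p.2 + DD q φ B c S p.1) := by
      ext1 p; exact GG_line φ B c S p
    rw [e]
    refine (line_continuous _).comp ?_
    exact (φ.continuous.comp continuous_fst).prodMk
      (continuous_snd.add ((h S).comp continuous_fst))
  have hopen : IsOpenMap (GG q φ B c) := by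
    intro U hU
    have e : GG q φ B c '' U = ⋃ S : Finset ℝ, line q ((S.map φ.toEquiv.toEmbedding) ∆ B) ''
        ((fun p : ℝ × F => (φ.symm p.1, p.2 - DD q φ B c S (φ.symm p.1))) ⁻¹'
          (line q S ⁻¹' U)) := by
      ext w
      simp only [mem_image, mem_iUnion, mem_preimage]
      constructor
      · rintro ⟨z, hz, rfl⟩
        refine ⟨z.S, (φ z.t, z.θ + DD q φ B c z.S z.t), ?_, ?_⟩
        · dsimp only
          rw [φ.symm_apply_apply, add_sub_cancel_right, line_self]
          exact hz
        · conv_rhs => rw [← line_self z]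
          rw [GG_line]
      · rintro ⟨S, p, hp, rfl⟩
        refine ⟨_, hp, ?_⟩
        rw [GG_line]
        dsimp only
        rw [φ.apply_symm_apply, sub_add_cancel]
    rw [e]
    apply isOpen_iUnion
    intro S
    apply line_isOpenMap hq
    apply IsOpen.preimage _ ((hU.preimage (line_continuous S)))
    exact (φ.symm.continuous.comp continuous_fst).prodMk
      (continuous_snd.sub ((h S).comp (φ.symm.continuous.comp continuous_fst)))
  exact ⟨(GG q φ B c).toHomeomorphOfContinuousOpen hcont hopen, fun z => rfl⟩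

end Pool.Agent.X83.NH
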