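import Mathlib

open Filter Topology Set

namespace Pool.Agent.X83.NH

/-- The oscillating function, in the logarithmic variable. -/
noncomputable def HH (y : ℝ) : ℝ :=
  Real.log (Real.log (max y (Real.exp 1))) *
    Real.sin (Real.pi * Real.log (max y (Real.exp 1)) / Real.log 2)

theorem one_le_log_max (y : ℝ) : 1 ≤ Real.log (max y (Real.exp 1)) := by
  have h := Real.log_le_log (Real.exp_pos 1) (le_max_right y (Real.exp 1))
  rwa [Real.log_exp] at h

theorem max_pos' (y : ℝ) : 0 < max y (Real.exp 1) :=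
  lt_of_lt_of_le (Real.exp_pos 1) (le_max_right _ _)

theorem HH_continuous : Continuous HH := by
  unfold HH
  have h1 : Continuous fun y : ℝ => Real.log (max y (Real.exp 1)) :=
    (continuous_id.max continuous_const).log fun y => (max_pos' y).ne'
  have h2 : Continuous fun y : ℝ => Real.log (Real.log (max y (Real.exp 1))) :=
    h1.log fun y => (lt_of_lt_of_le one_pos (one_le_log_max y)).ne'
  exact h2.mul (Real.continuous_sin.comp ((continuous_const.mul h1).div_const _))

theorem HH_zero {y : ℝ} (h : y ≤ Real.exp 1) : HH y = 0 := by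
  unfold HH
  rw [max_eq_right h, Real.log_exp, Real.log_one, zero_mul]

theorem HH_eq {y : ℝ} (h : Real.exp 1 ≤ y) :
    HH y = Real.log (Real.log y) * Real.sin (Real.pi * Real.log y / Real.log 2) := by
  unfold HH
  rw [max_eq_left h]

theorem one_le_log {y : ℝ} (h : Real.exp 1 ≤ y) : 1 ≤ Real.log y := by
  have h := Real.log_le_log (Real.exp_pos 1) h
  rwa [Real.log_exp] at h

theorem log_sub_le {a b : ℝ} (ha : 0 < a) (hab : a ≤ b) :
    Real.log b - Real.log a ≤ (b - a) / a := by
  have hb : 0 < b := lt_of_lt_of_le ha hab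
  rw [← Real.log_div hb.ne' ha.ne']
  have h := Real.log_le_sub_one_of_pos (div_pos hb ha)
  have e : b / a - 1 = (b - a) / a := by field_simp
  linarith

theorem HH_double : Tendsto (fun y : ℝ => HH y + HH (2 * y)) atTop (𝓝 0) := by
  have hl : Tendsto (fun y : ℝ => Real.log 2 / Real.log y) atTop (𝓝 0) :=
    Real.tendsto_log_atTop.const_div_atTop _
  refine squeeze_zero_norm' ?_ hl
  filter_upwards [eventually_ge_atTop (Real.exp 1)] with y hy
  have hy0 : 0 < y := lt_of_lt_of_le (Real.exp_pos 1) hy
  have hy2 : Real.exp 1 ≤ 2 * y := by linarith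
  have h1 := one_le_log hy
  have hlog2 : 0 < Real.log 2 := Real.log_pos (by norm_num)
  rw [HH_eq hy, HH_eq hy2, Real.log_mul (by norm_num) hy0.ne']
  have e : Real.pi * (Real.log 2 + Real.log y) / Real.log 2
      = Real.pi * Real.log y / Real.log 2 + Real.pi := by
    field_simp; ring
  rw [e, Real.sin_add_pi]
  have e2 : Real.log (Real.log y) * Real.sin (Real.pi * Real.log y / Real.log 2) +
      Real.log (Real.log 2 + Real.log y) * -Real.sin (Real.pi * Real.log y / Real.log 2)
      = -((Real.log (Real.log 2 + Real.log y) - Real.log (Real.log y)) *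
        Real.sin (Real.pi * Real.log y / Real.log 2)) := by ring
  rw [e2, norm_neg, norm_mul, Real.norm_eq_abs, Real.norm_eq_abs]
  have h2 := log_sub_le (a := Real.log y) (b := Real.log 2 + Real.log y) (by linarith) (by linarith)
  have h3 : 0 ≤ Real.log (Real.log 2 + Real.log y) - Real.log (Real.log y) :=
    sub_nonneg.2 (Real.log_le_log (by linarith) (by linarith))
  rw [abs_of_nonneg h3]
  calc _ ≤ (Real.log (Real.log 2 + Real.log y) - Real.log (Real.log y)) * 1 :=
        mul_le_mul_of_nonneg_left (Real.abs_sin_le_one _) h3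
    _ ≤ _ := by rw [mul_one]; refine h2.trans (le_of_eq ?_); ring

theorem HH_slow_aux (C : ℝ) (hC : 0 ≤ C) {y₁ y₂ : ℝ} (h2 : Real.exp 1 ≤ y₂) (h12 : y₂ ≤ y₁)
    (hd : y₁ - y₂ ≤ C) :
    |HH y₁ - HH y₂| ≤ (C + C * (Real.pi / Real.log 2)) * (Real.log y₂ / y₂) := by
  have hy2 : 0 < y₂ := lt_of_lt_of_le (Real.exp_pos 1) h2
  have h1 : Real.exp 1 ≤ y₁ := h2.trans h12
  have hl1 := one_le_log h1
  have hl2 := one_le_log h2
  have hlog2 : 0 < Real.log 2 := Real.log_pos (by norm_num)
  have hpi := Real.pi_pos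
  rw [HH_eq h1, HH_eq h2]
  set l₁ := Real.log y₁ with hl₁
  set l₂ := Real.log y₂ with hl₂
  have hll : l₂ ≤ l₁ := Real.log_le_log hy2 h12
  have hA : l₁ - l₂ ≤ C / y₂ := (log_sub_le hy2 h12).trans (by gcongr)
  have hB : Real.log l₁ - Real.log l₂ ≤ C / y₂ := by
    refine (log_sub_le (by linarith) hll).trans ?_
    rw [div_le_iff₀ (by linarith)]
    have : 0 ≤ C / y₂ := by positivity
    nlinarith
  have hB0 : 0 ≤ Real.log l₁ - Real.log l₂ := sub_nonneg.2 (Real.log_le_log (by linarith) hll)
  have hsin : |Real.sin (Real.pi * l₁ / Real.log 2) - Real.sin (Real.pi * l₂ / Real.log 2)|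
      ≤ (Real.pi / Real.log 2) * (C / y₂) := by
    have h := Real.abs_sin_sub_sin_le (Real.pi * l₁ / Real.log 2) (Real.pi * l₂ / Real.log 2)
    refine h.trans ?_
    have e : Real.pi * l₁ / Real.log 2 - Real.pi * l₂ / Real.log 2
        = (Real.pi / Real.log 2) * (l₁ - l₂) := by ring
    rw [e, abs_of_nonneg (mul_nonneg (by positivity) (by linarith))]
    exact mul_le_mul_of_nonneg_left hA (by positivity)
  have e : Real.log l₁ * Real.sin (Real.pi * l₁ / Real.log 2)
      - Real.log l₂ * Real.sin (Real.pi * l₂ / Real.log 2)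
      = (Real.log l₁ - Real.log l₂) * Real.sin (Real.pi * l₁ / Real.log 2)
        + Real.log l₂ * (Real.sin (Real.pi * l₁ / Real.log 2)
          - Real.sin (Real.pi * l₂ / Real.log 2)) := by ring
  rw [e]
  have hl20 : 0 ≤ Real.log l₂ := Real.log_nonneg hl2
  have hl2le : Real.log l₂ ≤ l₂ := by
    have := Real.log_le_sub_one_of_pos (show 0 < l₂ by linarith)
    linarith
  calc _ ≤ |(Real.log l₁ - Real.log l₂) * Real.sin (Real.pi * l₁ / Real.log 2)|
        + |Real.log l₂ * (Real.sin (Real.pi * l₁ / Real.log 2)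
          - Real.sin (Real.pi * l₂ / Real.log 2))| := abs_add_le _ _
    _ ≤ C / y₂ * l₂ + l₂ * ((Real.pi / Real.log 2) * (C / y₂)) := by
        apply add_le_add
        · rw [abs_mul, abs_of_nonneg hB0]
          calc _ ≤ (Real.log l₁ - Real.log l₂) * 1 :=
                mul_le_mul_of_nonneg_left (Real.abs_sin_le_one _) hB0
            _ ≤ C / y₂ * l₂ := by
                have : 0 ≤ C / y₂ := by positivity
                nlinarith
        · rw [abs_mul, abs_of_nonneg hl20]
          exact mul_le_mul hl2le hsin (abs_nonneg _) (by linarith)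
    _ = _ := by ring

theorem HH_slow (C ε : ℝ) (hC : 0 ≤ C) (hε : 0 < ε) :
    ∃ Y : ℝ, ∀ y₁ y₂ : ℝ, Y ≤ y₁ → Y ≤ y₂ → |y₁ - y₂| ≤ C → |HH y₁ - HH y₂| < ε := by
  have h1 : Tendsto (fun y : ℝ => (C + C * (Real.pi / Real.log 2)) * (Real.log y / y)) atTop
      (𝓝 0) := by
    have h := Real.tendsto_pow_log_div_mul_add_atTop 1 0 1 one_ne_zero
    simp only [pow_one, one_mul, add_zero] at h
    simpa using h.const_mul (C + C * (Real.pi / Real.log 2))
  have h2 := (h1.eventually_lt_const hε).and (eventually_ge_atTop (Real.exp 1))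
  obtain ⟨Y, hY⟩ := eventually_atTop.1 h2
  refine ⟨Y, fun y₁ y₂ hy1 hy2 hd => ?_⟩
  rcases le_total y₂ y₁ with h | h
  · exact lt_of_le_of_lt (HH_slow_aux C hC (hY y₂ hy2).2 h ((le_abs_self _).trans hd))
      (hY y₂ hy2).1
  · rw [abs_sub_comm] at hd ⊢
    exact lt_of_le_of_lt (HH_slow_aux C hC (hY y₁ hy1).2 h ((le_abs_self _).trans hd))
      (hY y₁ hy1).1

theorem HH_surj (c Y : ℝ) : ∃ y, Y < y ∧ HH y = c := by
  have hlog2 : 0 < Real.log 2 := Real.log_pos (by norm_num)
  have hpi := Real.pi_pos
  -- choose `k`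
  obtain ⟨k, hk⟩ := exists_nat_gt (max (max 1 |Y|) (Real.exp |c|) / Real.log 2)
  have hk' : max (max 1 |Y|) (Real.exp |c|) < k * Real.log 2 := by
    rwa [div_lt_iff₀ hlog2] at hk
  have hk1 : 1 < k * Real.log 2 :=
    lt_of_le_of_lt ((le_max_left _ _).trans (le_max_left _ _)) hk'
  have hkY : |Y| < k * Real.log 2 :=
    lt_of_le_of_lt ((le_max_right _ _).trans (le_max_left _ _)) hk'
  have hkc : Real.exp |c| < k * Real.log 2 := lt_of_le_of_lt (le_max_right _ _) hk'
  set y := Real.exp ((2 * k + 1 / 2) * Real.log 2) with hy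
  set z := Real.exp ((2 * k + 3 / 2) * Real.log 2) with hz
  have hbig : ∀ w : ℝ, k * Real.log 2 ≤ w → Real.exp 1 ≤ Real.exp w ∧ Y < Real.exp w ∧
      |c| ≤ Real.log w := by
    intro w hw
    refine ⟨Real.exp_le_exp.2 (by linarith), ?_, ?_⟩
    · have := Real.add_one_le_exp w
      have := le_abs_self Y
      linarith
    · rw [Real.le_log_iff_exp_le (by linarith)]
      linarith
  have hk0 : (0 : ℝ) ≤ k := Nat.cast_nonneg k
  have hy1 := hbig ((2 * k + 1 / 2) * Real.log 2) (by nlinarith)
  have hz1 := hbig ((2 * k + 3 / 2) * Real.log 2) (by nlinarith)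
  have hyz : y ≤ z := Real.exp_le_exp.2 (by nlinarith)
  have hHy : |c| ≤ HH y := by
    rw [HH_eq hy1.1, Real.log_exp]
    have e : Real.pi * ((2 * k + 1 / 2) * Real.log 2) / Real.log 2
        = Real.pi / 2 + k * (2 * Real.pi) := by field_simp; ring
    rw [e, Real.sin_add_nat_mul_two_pi, Real.sin_pi_div_two, mul_one]
    exact hy1.2.2
  have hHz : HH z ≤ -|c| := by
    rw [HH_eq hz1.1, Real.log_exp]
    have e : Real.pi * ((2 * k + 3 / 2) * Real.log 2) / Real.log 2
        = (Real.pi / 2 + Real.pi) + k * (2 * Real.pi) := by field_simp; ring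
    rw [e, Real.sin_add_nat_mul_two_pi, Real.sin_add_pi, Real.sin_pi_div_two]
    have := hz1.2.2
    linarith
  have hc : c ∈ Icc (HH z) (HH y) :=
    ⟨hHz.trans (neg_abs_le c), (le_abs_self c).trans hHy⟩
  obtain ⟨w, hw, hwc⟩ := intermediate_value_Icc' hyz HH_continuous.continuousOn hc
  exact ⟨w, lt_of_lt_of_le hy1.2.1 hw.1, hwc⟩

/-- The twist function. -/
noncomputable def tw (r : ℝ) : ℝ := if r ≤ 0 then 0 else HH (-Real.log r)

theorem tw_nonpos {r : ℝ} (h : r ≤ 0) : tw r = 0 := if_pos h

theorem tw_pos {r : ℝ} (h : 0 < r) : tw r = HH (-Real.log r) := if_neg (not_le.2 h)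

theorem tw_continuousAt {r : ℝ} (h : 0 < r) : ContinuousAt tw r := by
  have h1 : ContinuousAt (fun r => HH (-Real.log r)) r :=
    HH_continuous.continuousAt.comp (Real.continuousAt_log h.ne').neg
  refine h1.congr ?_
  filter_upwards [lt_mem_nhds h] with x hx
  exact (tw_pos hx).symm

theorem tw_continuousAt_neg {r : ℝ} (h : r < 0) : ContinuousAt tw r := by
  refine (continuousAt_const (y := (0 : ℝ))).congr ?_
  filter_upwards [gt_mem_nhds h] with x hx
  exact (tw_nonpos hx.le).symm

theorem tw_surj (c ε : ℝ) (hε : 0 < ε) : ∃ r, 0 < r ∧ r < ε ∧ tw r = c := by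
  obtain ⟨y, hy, hc⟩ := HH_surj c (-Real.log ε)
  refine ⟨Real.exp (-y), Real.exp_pos _, ?_, ?_⟩
  · rw [← Real.lt_log_iff_exp_lt hε]; linarith
  · rw [tw_pos (Real.exp_pos _), Real.log_exp, neg_neg, hc]

theorem KK_continuous : Continuous fun r : ℝ => tw r + tw (r * |r|) := by
  rw [continuous_iff_continuousAt]
  intro r
  have hm : ContinuousAt (fun r : ℝ => r * |r|) r := by fun_prop
  rcases lt_trichotomy r 0 with h | h | h
  · have h2 : r * |r| < 0 := mul_neg_of_neg_of_pos h (abs_pos.2 h.ne)
    exact (tw_continuousAt_neg h).add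
      (ContinuousAt.comp (g := tw) (f := fun r : ℝ => r * |r|) (tw_continuousAt_neg h2) hm)
  · subst h
    have h0 : tw 0 + tw (0 * |0|) = 0 := by simp [tw_nonpos le_rfl]
    show Tendsto (fun r : ℝ => tw r + tw (r * |r|)) (𝓝 0) (𝓝 (tw 0 + tw (0 * |0|)))
    rw [h0, Metric.tendsto_nhds]
    intro ε hε
    have h1 := (Metric.tendsto_nhds.1 HH_double) ε hε
    obtain ⟨Y, hY⟩ := eventually_atTop.1 h1
    have h2 : ∀ᶠ r : ℝ in 𝓝 0, r < Real.exp (-Y) := gt_mem_nhds (Real.exp_pos _)
    filter_upwards [h2] with r hr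
    rcases le_or_gt r 0 with hr0 | hr0
    · have : r * |r| ≤ 0 := mul_nonpos_of_nonpos_of_nonneg hr0 (abs_nonneg _)
      rw [tw_nonpos hr0, tw_nonpos this]; simpa using hε
    · have hp : 0 < r * |r| := mul_pos hr0 (abs_pos.2 hr0.ne')
      have h3 : Y ≤ -Real.log r := by
        have := Real.log_lt_log hr0 hr
        rw [Real.log_exp] at this; linarith
      have := hY _ h3
      rw [tw_pos hr0, tw_pos hp, abs_of_pos hr0, Real.log_mul hr0.ne' hr0.ne']
      have e : -(Real.log r + Real.log r) = 2 * -Real.log r := by ring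
      rw [e]; exact this
  · have h2 : 0 < r * |r| := mul_pos h (abs_pos.2 h.ne')
    exact (tw_continuousAt h).add
      (ContinuousAt.comp (g := tw) (f := fun r : ℝ => r * |r|) (tw_continuousAt h2) hm)

/-- The time change around `s`. -/
noncomputable def ph (s u : ℝ) : ℝ := s - (s - u) * |s - u|

theorem ph_continuous (s : ℝ) : Continuous (ph s) := by unfold ph; fun_prop

theorem ph_self (s : ℝ) : ph s s = s := by unfold ph; simp

theorem ph_strictMono (s : ℝ) : StrictMono (ph s) := by
  intro a b hab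
  unfold ph
  have : (s - b) * |s - b| < (s - a) * |s - a| := by
    rcases le_total 0 (s - b) with h | h
    · rw [abs_of_nonneg h, abs_of_nonneg (by linarith)]; nlinarith
    · rw [abs_of_nonpos h]
      rcases le_total 0 (s - a) with h' | h'
      · rw [abs_of_nonneg h']
        nlinarith [mul_pos (sub_pos.2 hab) (sub_pos.2 hab), sq_nonneg ((s - b) + (s - a))]
      · rw [abs_of_nonpos h']; nlinarith
  linarith

theorem ph_surj (s : ℝ) : Function.Surjective (ph s) := by
  intro y
  rcases le_total 0 (s - y) with h | h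
  · refine ⟨s - Real.sqrt (s - y), ?_⟩
    unfold ph
    rw [sub_sub_cancel, abs_of_nonneg (Real.sqrt_nonneg _), Real.mul_self_sqrt h]; ring
  · refine ⟨s + Real.sqrt (y - s), ?_⟩
    unfold ph
    have h' : 0 ≤ y - s := by linarith
    have e : s - (s + Real.sqrt (y - s)) = -Real.sqrt (y - s) := by ring
    rw [e, abs_neg, abs_of_nonneg (Real.sqrt_nonneg _), neg_mul, Real.mul_self_sqrt h']; ring

/-- The key slow variation property at the other nodes. -/
theorem EE_continuous (s x : ℝ) (hx : x ≠ s) :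
    Continuous fun u : ℝ => tw (x - u) - tw (ph s x - ph s u) := by
  rw [continuous_iff_continuousAt]
  intro u
  have c1 : ContinuousAt (fun u : ℝ => x - u) u := by fun_prop
  have c2 : ContinuousAt (fun u : ℝ => ph s x - ph s u) u :=
    (continuous_const.sub (ph_continuous s)).continuousAt
  rcases lt_trichotomy u x with h | h | h
  · have h2 : 0 < ph s x - ph s u := sub_pos.2 (ph_strictMono s h)
    exact (ContinuousAt.comp (g := tw) (f := fun u : ℝ => x - u)
        (tw_continuousAt (sub_pos.2 h)) c1).sub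
      (ContinuousAt.comp (g := tw) (f := fun u : ℝ => ph s x - ph s u) (tw_continuousAt h2) c2)
  · subst h
    have h0 : tw (u - u) - tw (ph s u - ph s u) = 0 := by simp
    show Tendsto (fun v : ℝ => tw (u - v) - tw (ph s u - ph s v)) (𝓝 u)
      (𝓝 (tw (u - u) - tw (ph s u - ph s u)))
    rw [h0, Metric.tendsto_nhds]
    intro ε hε
    -- the ratio
    set m : ℝ := 2 * |s - u| with hm
    have hm0 : 0 < m := by
      have : 0 < |s - u| := abs_pos.2 (sub_ne_zero.2 (Ne.symm hx))
      positivity
    set C : ℝ := |Real.log m| + 1 with hC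
    have hC0 : 0 ≤ C := by positivity
    obtain ⟨Y, hY⟩ := HH_slow C ε hC0 hε
    have hlog : Tendsto (fun v : ℝ => abs (Real.log (abs ((s - u) + (s - v))))) (𝓝 u)
        (𝓝 |Real.log m|) := by
      have e : m = |(s - u) + (s - u)| := by
        rw [hm, ← two_mul, abs_mul, abs_of_pos (by norm_num : (0 : ℝ) < 2)]
      have hc : ContinuousAt (fun v : ℝ => abs (Real.log (abs ((s - u) + (s - v))))) u := by
        have h3 : |(s - u) + (s - u)| ≠ 0 := by rw [← e]; exact hm0.ne'
        have h4 : ContinuousAt (fun v : ℝ => |(s - u) + (s - v)|) u := by fun_prop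
        exact (ContinuousAt.log h4 h3).abs
      have := hc.tendsto
      rwa [← e] at this
    have e1 := hlog.eventually_lt_const (show |Real.log m| < C by rw [hC]; linarith)
    have e2 : ∀ᶠ v : ℝ in 𝓝 u, u - v < Real.exp (-Y) := by
      have : Tendsto (fun v : ℝ => u - v) (𝓝 u) (𝓝 0) := by
        have h : Tendsto (fun v : ℝ => u - v) (𝓝 u) (𝓝 (u - u)) :=
          tendsto_const_nhds.sub tendsto_id
        rwa [sub_self] at h
      exact this.eventually_lt_const (Real.exp_pos _)
    have e3 : ∀ᶠ v : ℝ in 𝓝 u, ph s u - ph s v < Real.exp (-Y) := by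
      have : Tendsto (fun v : ℝ => ph s u - ph s v) (𝓝 u) (𝓝 0) := by
        have h : Tendsto (fun v : ℝ => ph s u - ph s v) (𝓝 u) (𝓝 (ph s u - ph s u)) :=
          tendsto_const_nhds.sub ((ph_continuous s).tendsto u)
        rwa [sub_self] at h
      exact this.eventually_lt_const (Real.exp_pos _)
    have e4 : ∀ᶠ v : ℝ in 𝓝 u, 0 < (s - u) * (s - v) := by
      have hc : Tendsto (fun v : ℝ => (s - u) * (s - v)) (𝓝 u) (𝓝 ((s - u) * (s - u))) :=
        (continuous_const.mul (continuous_const.sub continuous_id) :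
          Continuous fun v : ℝ => (s - u) * (s - v)).tendsto u
      exact hc.eventually_const_lt (mul_self_pos.2 (sub_ne_zero.2 (Ne.symm hx)))
    filter_upwards [e1, e2, e3, e4] with v h1 h2 h3 h4
    rcases le_or_gt u v with huv | huv
    · have a1 : ph s u - ph s v ≤ 0 := sub_nonpos.2 ((ph_strictMono s).monotone huv)
      rw [tw_nonpos (by linarith), tw_nonpos a1]; simpa using hε
    · have a1 : 0 < u - v := sub_pos.2 huv
      have a2 : 0 < ph s u - ph s v := sub_pos.2 (ph_strictMono s huv)
      rw [tw_pos a1, tw_pos a2, Real.dist_eq, sub_zero]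
      have key : ph s u - ph s v = (u - v) * |(s - u) + (s - v)| := by
        unfold ph
        rcases lt_or_gt_of_ne (sub_ne_zero.2 (Ne.symm hx)) with hs | hs
        · have hs' : s - v < 0 := by
            by_contra hcon
            push Not at hcon
            have := mul_nonpos_of_nonpos_of_nonneg hs.le hcon
            linarith
          rw [abs_of_neg hs, abs_of_neg hs', abs_of_neg (by linarith)]; ring
        · have hs' : 0 < s - v := by
            by_contra hcon
            push Not at hcon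
            have := mul_nonpos_of_nonneg_of_nonpos hs.le hcon
            linarith
          rw [abs_of_pos hs, abs_of_pos hs', abs_of_pos (by linarith)]; ring
      have hne : |(s - u) + (s - v)| ≠ 0 := by
        intro h0
        rw [key, h0, mul_zero] at a2
        exact lt_irrefl _ a2
      apply hY
      · have := Real.log_lt_log a1 h2
        rw [Real.log_exp] at this; linarith
      · have := Real.log_lt_log a2 h3
        rw [Real.log_exp] at this; linarith
      · rw [key, Real.log_mul a1.ne' hne]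
        have e : -Real.log (u - v) - -(Real.log (u - v) + Real.log (abs ((s - u) + (s - v))))
            = Real.log (abs ((s - u) + (s - v))) := by ring
        rw [e]; exact h1.le
  · have h2 : ph s x - ph s u < 0 := sub_neg.2 (ph_strictMono s h)
    exact (ContinuousAt.comp (g := tw) (f := fun u : ℝ => x - u)
        (tw_continuousAt_neg (sub_neg.2 h)) c1).sub
      (ContinuousAt.comp (g := tw) (f := fun u : ℝ => ph s x - ph s u)
        (tw_continuousAt_neg h2) c2)

end Pool.Agent.X83.NH
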